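import Pool.Agent.Run7.h47.SD.Iface

/-!
# Project SD (helper47), piece KER (helper704)
-/

set_option autoImplicit false
set_option linter.all false

namespace Pool.Agent.Run7.h704.SD

open MeasureTheory Filter Pool.Agent.W792.LL Pool.Agent.W792.WA Pool.Agent.N659.HB
open ProbabilityTheory Pool.Agent.Run7.h47.SD
open scoped Topology ENNReal

noncomputable section

theorem vi_ne (v : ℝ) : (v : ℂ) - Complex.I ≠ 0 := by
  intro h
  have := congrArg Complex.im h
  simp at this

theorem dd_norm (v : ℝ) : ‖dd v‖ ≤ 1 := by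
  unfold dd
  rw [norm_div, norm_one, div_le_one (norm_pos_iff.2 (vi_ne v))]
  have h := Complex.abs_im_le_norm ((v : ℂ) - Complex.I)
  simpa using h

theorem dd_cont : Continuous dd := by
  unfold dd
  exact continuous_const.div (by fun_prop) vi_ne

theorem prod_dd_norm {Γ : Type} (v : Γ → ℝ) (Q : List Γ) : ‖(Q.map fun q => dd (v q)).prod‖ ≤ 1 := by
  induction Q with
  | nil => simp
  | cons a Q ih =>
    rw [List.map_cons, List.prod_cons, norm_mul]
    exact mul_le_one₀ (dd_norm _) (norm_nonneg _) ih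

theorem prod_dd_meas {Γ : Type} (Q : List Γ) :
    Measurable fun v : Γ → ℝ => (Q.map fun q => dd (v q)).prod := by
  induction Q with
  | nil => simp
  | cons a Q ih =>
    simp only [List.map_cons, List.prod_cons]
    exact (dd_cont.measurable.comp (measurable_pi_apply a)).mul ih

variable {d : ℕ}

theorem ter_zero_apply (hD : S_DIA) (X : C(UnitAddTorus (Fin d), ℂ)) (v : (Fin d → ℤ) → ℝ)
    (x : Fin d → ℤ) : ter X 0 v (dl 0) x = dd (v x) * (if x = 0 then 1 else 0) := by
  unfold ter Pool.Agent.Run7.h47.SD.DD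
  rw [pow_zero, mul_one, (hD _ (fun x => dd (v x)) (fun x => dd_norm _)).1]
  congr 1
  unfold dl
  rw [lp.coeFn_single]
  by_cases h : x = 0
  · subst h
    simp
  · rw [if_neg h, Pi.single_eq_of_ne h]

theorem ter_succ_apply (hO : S_OPR) (hD : S_DIA) (X : C(UnitAddTorus (Fin d), ℂ)) (n : ℕ)
    (v : (Fin d → ℤ) → ℝ) (x : Fin d → ℤ) : ter X (n + 1) v (dl 0) x =
      dd (v x) * ∑' y, UnitAddTorus.mFourierCoeff X (x - y) * ter X n v (dl 0) y := by
  have e : ter X (n + 1) v = Pool.Agent.Run7.h47.SD.DD v * (opr X * ter X n v) := by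
    unfold ter
    rw [pow_succ']
    simp only [mul_assoc]
  rw [e, ContinuousLinearMap.mul_apply]
  unfold Pool.Agent.Run7.h47.SD.DD
  rw [(hD _ (fun x => dd (v x)) (fun x => dd_norm _)).1, ContinuousLinearMap.mul_apply,
    ((hO d X X).1 _ x).2]

theorem ter_bound (hO : S_OPR) (hD : S_DIA) (X : C(UnitAddTorus (Fin d), ℂ)) (n : ℕ)
    (v : (Fin d → ℤ) → ℝ) (x : Fin d → ℤ) : ‖ter X n v (dl 0) x‖ ≤ ‖X‖ ^ n := by
  have hDn : ‖Pool.Agent.Run7.h47.SD.DD v‖ ≤ 1 := (hD _ (fun x => dd (v x)) (fun x => dd_norm _)).2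
  have hXn : ‖opr X‖ ≤ ‖X‖ := (hO d X X).2.1
  have h1 : ‖opr X * Pool.Agent.Run7.h47.SD.DD v‖ ≤ ‖X‖ := by
    refine (norm_mul_le _ _).trans ?_
    calc ‖opr X‖ * ‖Pool.Agent.Run7.h47.SD.DD v‖ ≤ ‖X‖ * 1 := mul_le_mul hXn hDn (norm_nonneg _) (norm_nonneg _)
      _ = ‖X‖ := mul_one _
  have h2 : ‖ter X n v‖ ≤ ‖X‖ ^ n := by
    induction n with
    | zero =>
      unfold ter
      rw [pow_zero, mul_one, pow_zero]
      exact hDn
    | succ n ih =>
      have e : ter X (n + 1) v = ter X n v * (opr X * Pool.Agent.Run7.h47.SD.DD v) := by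
        unfold ter
        rw [pow_succ, mul_assoc]
      rw [e, pow_succ]
      exact (norm_mul_le _ _).trans (mul_le_mul ih h1 (norm_nonneg _) (by positivity))
  have h3 : ‖(dl 0 : l2 (Fin d → ℤ))‖ = 1 := by
    unfold dl
    rw [lp.norm_single (by norm_num)]
    simp
  calc ‖ter X n v (dl 0) x‖ ≤ ‖ter X n v (dl 0)‖ := lp.norm_apply_le_norm (by norm_num) _ x
    _ ≤ ‖ter X n v‖ * ‖(dl 0 : l2 (Fin d → ℤ))‖ := ContinuousLinearMap.le_opNorm _ _
    _ ≤ ‖X‖ ^ n := by rw [h3, mul_one]; exact h2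

theorem ter_meas (hO : S_OPR) (hD : S_DIA) (X : C(UnitAddTorus (Fin d), ℂ)) (n : ℕ) :
    ∀ x : Fin d → ℤ, Measurable fun v : (Fin d → ℤ) → ℝ => ter X n v (dl 0) x := by
  induction n with
  | zero =>
    intro x
    simp only [ter_zero_apply hD]
    exact (dd_cont.measurable.comp (measurable_pi_apply x)).mul measurable_const
  | succ n ih =>
    intro x
    simp only [ter_succ_apply hO hD]
    refine (dd_cont.measurable.comp (measurable_pi_apply x)).mul ?_
    refine measurable_of_tendsto_metrizable' (f := fun (s : Finset (Fin d → ℤ)) (v : (Fin d → ℤ) → ℝ) =>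
      ∑ y ∈ s, UnitAddTorus.mFourierCoeff X (x - y) * ter X n v (dl 0) y) atTop ?_ ?_
    · intro s
      exact Finset.measurable_sum _ fun y _ => measurable_const.mul (ih y)
    · rw [tendsto_pi_nhds]
      intro v
      exact ((hO d X X).1 (ter X n v (dl 0)) x).1.hasSum

/-- summability of the coefficients -/
theorem sm_coeff {X : C(UnitAddTorus (Fin d), ℂ)} {B : ℝ} (hX : Wn X B) :
    Summable fun x : Fin d → ℤ => ‖UnitAddTorus.mFourierCoeff X x‖ :=
  summable_of_sum_le (fun _ => norm_nonneg _) hX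

theorem ts_coeff {X : C(UnitAddTorus (Fin d), ℂ)} {B : ℝ} (hX : Wn X B) :
    ∑' x : Fin d → ℤ, ‖UnitAddTorus.mFourierCoeff X x‖ ≤ B :=
  (sm_coeff hX).tsum_le_of_sum_le hX

theorem main_ind (hO : S_OPR) (hD : S_DIA) (hP : S_PRD) (ν : Measure ℝ) [IsProbabilityMeasure ν]
    (A C₁ B : ℝ) (X : C(UnitAddTorus (Fin d), ℂ)) (hML : ML ν A C₁) (hX : Wn X B) (n : ℕ) :
    ∃ b : (Fin d → ℤ) → ℝ, (∀ x, 0 ≤ b x) ∧ Summable b ∧ ∑' x, b x ≤ B ^ n ∧
      ∀ (Q : List (Fin d → ℤ)) (x : Fin d → ℤ),
        ‖∫ v, (Q.map fun q => dd (v q)).prod * ter X n v (dl 0) x ∂(Pn ν (Fin d → ℤ))‖ ≤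
          A ^ (Q.length + n + 1) * b x := by
  have hA := hML.pos
  have hB : 0 ≤ B := by simpa using hX ∅
  induction n with
  | zero =>
    refine ⟨fun x => if x = 0 then 1 else 0, ?_, ?_, ?_, ?_⟩
    · intro x
      show (0 : ℝ) ≤ if x = 0 then 1 else 0
      split_ifs <;> norm_num
    · exact (hasSum_ite_eq (0 : Fin d → ℤ) (1 : ℝ)).summable
    · rw [tsum_ite_eq, pow_zero]
    · intro Q x
      simp only [ter_zero_apply hD]
      by_cases h : x = 0
      · subst h
        simp only [if_true, mul_one]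
        have h1 := hP ν A C₁ hML (Fin d → ℤ) (0 :: Q)
        simp only [List.map_cons, List.prod_cons, List.length_cons] at h1
        have h2 : ∀ v : (Fin d → ℤ) → ℝ, (Q.map fun q => dd (v q)).prod * dd (v 0) =
          dd (v 0) * (Q.map fun q => dd (v q)).prod := fun v => mul_comm _ _
        simp only [h2]
        exact h1
      · simp only [if_neg h, mul_zero, integral_zero, norm_zero, le_refl]
  | succ n ih =>
    obtain ⟨b, hb0, hbs, hbt, hb⟩ := ih
    have hsm := sm_coeff hX
    -- the convolution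
    have hpair : Summable fun p : (Fin d → ℤ) × (Fin d → ℤ) =>
        ‖UnitAddTorus.mFourierCoeff X p.1‖ * b p.2 :=
      hsm.mul_of_nonneg hbs (fun _ => norm_nonneg _) hb0
    let e : (Fin d → ℤ) × (Fin d → ℤ) ≃ (Fin d → ℤ) × (Fin d → ℤ) :=
      { toFun := fun p => (p.1 - p.2, p.2)
        invFun := fun p => (p.1 + p.2, p.2)
        left_inv := fun p => by simp
        right_inv := fun p => by simp }
    have hpair2 : Summable fun p : (Fin d → ℤ) × (Fin d → ℤ) =>
        ‖UnitAddTorus.mFourierCoeff X (p.1 - p.2)‖ * b p.2 := (e.summable_iff (f := fun p :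
          (Fin d → ℤ) × (Fin d → ℤ) => ‖UnitAddTorus.mFourierCoeff X p.1‖ * b p.2)).2 hpair
    have htot : ∑' p : (Fin d → ℤ) × (Fin d → ℤ),
        ‖UnitAddTorus.mFourierCoeff X (p.1 - p.2)‖ * b p.2 =
        (∑' x, ‖UnitAddTorus.mFourierCoeff X x‖) * ∑' y, b y := by
      rw [hsm.tsum_mul_tsum hbs hpair]
      exact e.tsum_eq (fun p : (Fin d → ℤ) × (Fin d → ℤ) =>
        ‖UnitAddTorus.mFourierCoeff X p.1‖ * b p.2)
    refine ⟨fun x => ∑' y, ‖UnitAddTorus.mFourierCoeff X (x - y)‖ * b y, ?_, ?_, ?_, ?_⟩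
    · intro x
      exact tsum_nonneg fun y => mul_nonneg (norm_nonneg _) (hb0 y)
    · exact hpair2.prod
    · rw [← hpair2.tsum_prod, htot, pow_succ, mul_comm]
      exact mul_le_mul hbt (ts_coeff hX) (tsum_nonneg fun _ => norm_nonneg _) (by positivity)
    · intro Q x
      have hsx : Summable fun y : Fin d → ℤ => ‖UnitAddTorus.mFourierCoeff X (x - y)‖ :=
        (Equiv.subLeft x).summable_iff.2 hsm
      have hsy : Summable fun y : Fin d → ℤ => ‖UnitAddTorus.mFourierCoeff X (x - y)‖ * b y :=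
        hpair2.prod_factor x
      -- the integrand as a sum
      have h1 : ∀ v : (Fin d → ℤ) → ℝ, (Q.map fun q => dd (v q)).prod * ter X (n + 1) v (dl 0) x =
          ∑' y, UnitAddTorus.mFourierCoeff X (x - y) *
            (((x :: Q).map fun q => dd (v q)).prod * ter X n v (dl 0) y) := by
        intro v
        rw [ter_succ_apply hO hD, List.map_cons, List.prod_cons, ← mul_assoc, ← tsum_mul_left]
        refine tsum_congr fun y => ?_
        ring
      have hmeas : ∀ y, Measurable fun v : (Fin d → ℤ) → ℝ => UnitAddTorus.mFourierCoeff X (x - y) *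
          (((x :: Q).map fun q => dd (v q)).prod * ter X n v (dl 0) y) := fun y =>
        measurable_const.mul ((prod_dd_meas _).mul (ter_meas hO hD X n y))
      have hbd : ∀ y (v : (Fin d → ℤ) → ℝ), ‖UnitAddTorus.mFourierCoeff X (x - y) *
          (((x :: Q).map fun q => dd (v q)).prod * ter X n v (dl 0) y)‖ ≤
          ‖UnitAddTorus.mFourierCoeff X (x - y)‖ * ‖X‖ ^ n := by
        intro y v
        rw [norm_mul, norm_mul]
        refine mul_le_mul_of_nonneg_left ?_ (norm_nonneg _)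
        calc _ ≤ 1 * ‖X‖ ^ n := mul_le_mul (prod_dd_norm v _) (ter_bound hO hD X n v y)
              (norm_nonneg _) zero_le_one
          _ = ‖X‖ ^ n := one_mul _
      have hint : ∀ y, Integrable (fun v : (Fin d → ℤ) → ℝ => UnitAddTorus.mFourierCoeff X (x - y) *
          (((x :: Q).map fun q => dd (v q)).prod * ter X n v (dl 0) y)) (Pn ν (Fin d → ℤ)) :=
        fun y => Integrable.of_bound (hmeas y).aestronglyMeasurable _ (ae_of_all _ (hbd y))
      have hnorm : Summable fun y => ∫ v, ‖UnitAddTorus.mFourierCoeff X (x - y) *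
          (((x :: Q).map fun q => dd (v q)).prod * ter X n v (dl 0) y)‖ ∂(Pn ν (Fin d → ℤ)) := by
        refine Summable.of_nonneg_of_le (fun y => integral_nonneg fun v => norm_nonneg _) (fun y => ?_)
          (hsx.mul_right (‖X‖ ^ n))
        calc _ ≤ ∫ v, ‖UnitAddTorus.mFourierCoeff X (x - y)‖ * ‖X‖ ^ n ∂(Pn ν (Fin d → ℤ)) :=
              integral_mono (hint y).norm (integrable_const _) (hbd y)
          _ = _ := by simp
      have h2 : ∫ v, (Q.map fun q => dd (v q)).prod * ter X (n + 1) v (dl 0) x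
          ∂(Pn ν (Fin d → ℤ)) = ∑' y, UnitAddTorus.mFourierCoeff X (x - y) *
            ∫ v, (((x :: Q).map fun q => dd (v q)).prod * ter X n v (dl 0) y)
              ∂(Pn ν (Fin d → ℤ)) := by
        simp only [h1]
        rw [← integral_tsum_of_summable_integral_norm hint hnorm]
        refine tsum_congr fun y => ?_
        rw [integral_const_mul]
      rw [h2]
      have h3 : ∀ y, ‖UnitAddTorus.mFourierCoeff X (x - y) *
            ∫ v, (((x :: Q).map fun q => dd (v q)).prod * ter X n v (dl 0) y)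
              ∂(Pn ν (Fin d → ℤ))‖ ≤ A ^ (Q.length + (n + 1) + 1) *
              (‖UnitAddTorus.mFourierCoeff X (x - y)‖ * b y) := by
        intro y
        rw [norm_mul]
        have h4 := hb (x :: Q) y
        have h5 : (x :: Q).length + n + 1 = Q.length + (n + 1) + 1 := by
          rw [List.length_cons]
          ring
        rw [h5] at h4
        calc _ ≤ ‖UnitAddTorus.mFourierCoeff X (x - y)‖ * (A ^ (Q.length + (n + 1) + 1) * b y) :=
              mul_le_mul_of_nonneg_left h4 (norm_nonneg _)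
          _ = _ := by ring
      rw [← tsum_mul_left]
      exact tsum_of_norm_bounded (hsy.mul_left _).hasSum h3

theorem t_KER : S_OPR → S_DIA → S_PRD → S_KER := by
  intro hO hD hP ν _ d A C₁ B X hML hX n F
  obtain ⟨b, hb0, hbs, hbt, hb⟩ := main_ind hO hD hP ν A C₁ B X hML hX n
  have hA := hML.pos
  calc ∑ x ∈ F, ‖∫ v, ter X n v (dl 0) x ∂(Pn ν (Fin d → ℤ))‖ ≤ ∑ x ∈ F, A ^ (n + 1) * b x := by
        refine Finset.sum_le_sum fun x _ => ?_
        have h := hb [] x
        simpa using h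
    _ = A ^ (n + 1) * ∑ x ∈ F, b x := by rw [Finset.mul_sum]
    _ ≤ A ^ (n + 1) * B ^ n := by
        refine mul_le_mul_of_nonneg_left ?_ (by positivity)
        exact (hbs.sum_le_tsum F fun x _ => hb0 x).trans hbt

end

end Pool.Agent.Run7.h704.SD
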